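import Pool.Agent.REV.StmtsG4
import Pool.Agent.Helper59_REV.HZR
import Pool.Agent.Helper59_REV.HZB

set_option autoImplicit false

/-!
# REV, row HZB3: the support function of a zonal density in the meridian plane, dimension 3
-/

open MeasureTheory Module Set Filter
open scoped RealInnerProductSpace Topology

namespace Pool.Agent.REV.H85

open Pool.Agent.BPH Pool.Agent.REV.H59

theorem hzb3 (dhz : Dhz3Stmt) (law : LawStmt) (vlm : Vm3Stmt) : Hzb3Stmt := by
  intro E _ _ _ _ _ h3
  have hnt : Nontrivial E := Module.nontrivial_of_finrank_pos (R := ℝ) (by omega)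
  have sp := sph_facts
  have hprob : IsProbabilityMeasure (sph E) := sp.prob
  obtain ⟨κ1, hκ1, hd⟩ := dhz E h3.ge
  obtain ⟨κ0, hκ0, hl⟩ := law (E := E) (by omega)
  simp only [h3] at hd hl
  refine ⟨κ0, κ1, hκ0, hκ1, fun e m he hm hem φ hφ => ?_⟩
  obtain ⟨C, hC⟩ := hφ.bdd
  have hC' : ∀ t, |φ t| ≤ C := fun t => by rw [abs_of_nonneg (hφ.nonneg t)]; exact hC t
  have hC0 : 0 ≤ C := (abs_nonneg _).trans (hC' 0)
  have hBM : BM φ := ⟨hφ.meas, C, hC'⟩
  have hzm : Measurable (zon e φ) := hφ.meas.comp (by fun_prop)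
  have hzC : ∀ x, |zon e φ x| ≤ C := fun x => hC' _
  have hne : ∀ b : ℝ, e + b • m ≠ 0 := by
    intro b h
    have h1 : ⟪e, e + b • m⟫ = 1 := by
      rw [inner_add_right, inner_smul_right, hem, real_inner_self_eq_norm_sq, he]
      norm_num
    rw [h, inner_zero_right] at h1
    exact zero_ne_one h1
  have hder : ∀ b : ℝ, HasDerivAt (fun b : ℝ => hz (zon e φ) (e + b • m))
      (∫ x, Real.sign ⟪e + b • m, x⟫ * ⟪m, x⟫ * zon e φ x ∂sph E) b := by
    intro b
    have h1 := hz_deriv hzm hzC (hne b) hm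
    have h2 : HasDerivAt (fun s : ℝ => hz (zon e φ) ((e + b • m) + s • m))
        (∫ x, Real.sign ⟪e + b • m, x⟫ * ⟪m, x⟫ * zon e φ x ∂sph E) (b - b) := by
      rw [sub_self]; exact h1
    have h4 := h2.comp_sub_const b b
    refine h4.congr_of_eventuallyEq (Eventually.of_forall fun s => ?_)
    simp only
    congr 1
    rw [sub_smul]
    abel
  have hval : ∀ b : ℝ, 0 < b → ∫ x, Real.sign ⟪e + b • m, x⟫ * ⟪m, x⟫ * zon e φ x ∂sph E =
      κ1 * yb 3 φ b := by
    intro b hb
    set r : ℝ := Real.sqrt (1 + b ^ 2) with hr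
    have hr0 : 0 < r := Real.sqrt_pos.mpr (by positivity)
    have hr2 : r ^ 2 = 1 + b ^ 2 := Real.sq_sqrt (by positivity)
    have htc : (r⁻¹) ^ 2 + (cb b) ^ 2 = 1 := by
      rw [cb, ← hr, div_pow, inv_pow, hr2]
      field_simp
    have h1 := hd e m he hm hem r⁻¹ (cb b) htc (by rw [cb]; positivity) φ hBM
    rw [yb, ← h1]
    refine integral_congr_ae (Eventually.of_forall fun x => ?_)
    simp only
    have h2 : r⁻¹ • e + cb b • m = r⁻¹ • (e + b • m) := by
      rw [smul_add, smul_smul, cb, ← hr, div_eq_inv_mul]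
    rw [h2, inner_smul_left]
    simp only [conj_trivial]
    rw [sign_pos_mul (inv_pos.mpr hr0)]
  obtain ⟨-, hyc, -⟩ := vlm φ hφ
  have h0 : hz (zon e φ) e = κ0 * H0 3 φ := by
    have hm1 : Measurable (zon e (fun r => r * φ r)) := by
      have : zon e (fun r => r * φ r) = fun x : E => min |⟪e, x⟫| 1 * φ (min |⟪e, x⟫| 1) := rfl
      rw [this]
      exact Measurable.mul (by fun_prop) (hφ.meas.comp (by fun_prop))
    have h1 := hl e he (fun r => r * φ r) hm1 ⟨C, fun r hr => by
      rw [abs_mul, abs_of_nonneg hr.1]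
      calc r * |φ r| ≤ 1 * C := mul_le_mul hr.2 (hC' r) (abs_nonneg _) zero_le_one
        _ = C := one_mul C⟩
    have h2 : hz (zon e φ) e = ∫ x, zon e (fun r => r * φ r) x ∂sph E := by
      unfold hz
      refine integral_congr_ae ?_
      filter_upwards [sp.norm (E := E)] with x hx
      have h5 : |⟪e, x⟫| ≤ 1 := by
        have := abs_real_inner_le_norm e x
        rwa [he, hx, mul_one] at this
      simp only [zon]
      rw [min_eq_left h5]
    rw [h2, h1, H0]
    congr 1
    refine intervalIntegral.integral_congr fun r _ => ?_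
    show (1 - r ^ 2) ^ ((((3 : ℕ) : ℝ) - 3) / 2) * (r * φ r) =
      r * (1 - r ^ 2) ^ ((((3 : ℕ) : ℝ) - 3) / 2) * φ r
    ring
  constructor
  · intro b hb
    have hcont : ContinuousOn (fun b : ℝ => hz (zon e φ) (e + b • m)) (Icc 0 b) :=
      fun x _ => (hder x).continuousAt.continuousWithinAt
    have hint : IntervalIntegrable (fun s => κ1 * yb 3 φ s) volume 0 b := by
      refine ContinuousOn.intervalIntegrable ?_
      rw [uIcc_of_le hb]
      exact (continuousOn_const.mul hyc).mono fun x hx => hx.1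
    have h1 := intervalIntegral.integral_eq_sub_of_hasDerivAt_of_le hb hcont
      (fun x hx => by rw [← hval x hx.1]; exact hder x) hint
    rw [intervalIntegral.integral_const_mul] at h1
    rw [zero_smul, add_zero, h0] at h1
    rw [h1]
    ring
  · have h1 := hd e m he hm hem 0 1 (by norm_num) one_pos φ hBM
    rw [one_mul] at h1
    rw [← h1]
    unfold hz
    refine integral_congr_ae (Eventually.of_forall fun x => ?_)
    simp only
    rw [zero_smul, zero_add, one_smul, sign_mul_self']

end Pool.Agent.REV.H85
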